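import Pool.Agent.helper70.QSD.SpecA

/-!
Row qsd:DGH (helper9).
-/

set_option autoImplicit false

namespace Pool.Agent.helper70.QSD

open Pool.Agent.helper53.AU
open scoped Classical IntermediateField Polynomial

theorem DGH_fix {k F : Type} [Field k] [Field F] [Algebra k F] (s : F) (τ : F ≃ₐ[k] F) :
    τ ∈ k⟮s⟯.fixingSubgroup ↔ τ s = s := by
  rw [IntermediateField.mem_fixingSubgroup_iff]
  constructor
  · intro h
    exact h s (IntermediateField.mem_adjoin_simple_self k s)
  · intro h x hx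
    induction hx using IntermediateField.adjoin_induction with
    | mem x hx =>
      rw [Set.mem_singleton_iff.1 hx]
      exact h
    | algebraMap c => exact τ.commutes c
    | add x y _ _ hx hy => rw [map_add, hx, hy]
    | inv x _ hx => rw [map_inv₀, hx]
    | mul x y _ _ hx hy => rw [map_mul, hx, hy]

/-- DGH -/
theorem DGH : DGH_stmt := by
  intro d k F _ _ _ s z hC
  obtain ⟨a, ham, had, -, haz⟩ := hC.eq
  have hgal := hC.gal
  -- evaluation in `K = k(s)`
  obtain ⟨ψ, hψ⟩ : ∃ ψ : k[X] →+* k⟮s⟯, ∀ p : k[X], algebraMap k⟮s⟯ F (ψ p) = Polynomial.aeval s p := by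
    refine ⟨((Polynomial.aeval (IntermediateField.AdjoinSimple.gen k s) : k[X] →ₐ[k] k⟮s⟯) : k[X] →+* k⟮s⟯), ?_⟩
    intro p
    have h := Polynomial.aeval_algebraMap_apply F (IntermediateField.AdjoinSimple.gen k s) p
    rw [IntermediateField.AdjoinSimple.algebraMap_gen] at h
    exact h.symm
  have hroot : Polynomial.aeval z (a.map ψ) = 0 := by
    rw [Polynomial.aeval_def, Polynomial.eval₂_map]
    have h2 : (algebraMap k⟮s⟯ F).comp ψ = ((Polynomial.aeval s : k[X] →ₐ[k] F) : k[X] →+* F) :=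
      RingHom.ext fun p => hψ p
    rw [h2]
    exact haz
  have hint : IsIntegral k⟮s⟯ z := ⟨a.map ψ, ham.map ψ, hroot⟩
  have hfr : Module.finrank k⟮s⟯ F = (minpoly k⟮s⟯ z).natDegree := by
    rw [← IntermediateField.adjoin.finrank hint, ← IntermediateField.finrank_top', ← hC.gen]
  have hfd : FiniteDimensional k⟮s⟯ F := by
    have h1 : FiniteDimensional k⟮s⟯ (IntermediateField.adjoin k⟮s⟯ ({z} : Set F)) :=
      IntermediateField.adjoin.finiteDimensional hint
    refine Module.finite_of_finrank_pos ?_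
    rw [hfr]
    exact minpoly.natDegree_pos hint
  have hle : (minpoly k⟮s⟯ z).natDegree ≤ d := by
    refine le_trans ?_ had
    rw [← ham.natDegree_map ψ]
    exact Polynomial.natDegree_le_of_dvd (minpoly.dvd _ _ hroot) (ham.map ψ).ne_zero
  refine ⟨(minpoly k⟮s⟯ z).natDegree, minpoly.natDegree_pos hint, hle, hfr, ?_, ?_⟩
  · rw [← hfr, ← IsGalois.card_aut_eq_finrank k⟮s⟯ F]
    refine Nat.card_congr ?_
    refine (Equiv.subtypeEquivRight fun τ => (DGH_fix s τ).symm).trans ?_
    exact (IntermediateField.fixingSubgroupEquiv k⟮s⟯).toEquiv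
  · intro φ h0 i
    have hli : LinearIndependent k⟮s⟯ fun i : Fin (minpoly k⟮s⟯ z).natDegree => z ^ (i : ℕ) :=
      linearIndependent_pow z
    have h1 : ∑ i : Fin (minpoly k⟮s⟯ z).natDegree, ψ (φ i) • z ^ (i : ℕ) = 0 := by
      rw [← h0]
      refine Finset.sum_congr rfl fun j _ => ?_
      rw [Algebra.smul_def, hψ]
    have h2 := Fintype.linearIndependent_iff.1 hli (fun i => ψ (φ i)) h1 i
    have h3 : Polynomial.aeval s (φ i) = 0 := by rw [← hψ, h2, map_zero]
    exact (transcendental_iff.1 hC.tr) _ h3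

end Pool.Agent.helper70.QSD
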